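import Pool.Agent.H7.HDA.MO2
import Pool.Agent.H3.HD11.DG
import Pool.Agent.H3.HD11.MLC
import Pool.Agent.H49.HDA.QF
import Pool.Agent.H54.HDA.LMM
import Pool.Agent.H59.HD.CS2
import Pool.Agent.H60.HDA.CO1
import Pool.Agent.H60.HDA.RK
import Pool.Agent.H63.HDA.CVR
import Pool.Agent.H63.HDA.LI
import Pool.Agent.H64.HDA.DN
import Pool.Agent.H64.HDA.NR
import Pool.Agent.H69.HDA.NO2
import Pool.Agent.H69.HDA.UQ
import Pool.Agent.H69.HDA.WH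
import Pool.Agent.H77.HDA.COV
import Pool.Agent.H77.HDA.EX
import Pool.Agent.H77.HDA.SRG
import Pool.Agent.H86.HDA.HSD
import Pool.Agent.H86.HDA.PO2
import Pool.Agent.H86.HDA.SH2
import Pool.Agent.H86.HDA.TP
import Pool.Agent.H89.HDA.HMI
import Pool.Agent.H90.HDA.HS
import Pool.Agent.H90.HDA.NM
import Pool.Agent.H90.HDA.WN2
import Pool.Agent.H56.HDA.GDD
import Pool.Agent.H63.HDA.UP
import Pool.Agent.H68.HE.LD
import Pool.Agent.H91.HDA.NX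
import Pool.Agent.H91.HDA.VQ

/-!
# Assembly of the eleventh list of modules (MP_e37c09_lc)
-/

open Ordinal Cardinal Order Set
open scoped ZFSet

universe u

namespace HD

/-- Each subset of `K` in HOD which is stationary in `V` belongs to a normal measure of HOD. -/
def StM (K : Cardinal.{u}) : Prop := ∀ x, HOD x → x ⊆ K.ord.toZFSet →
  (∀ C, Clb K.ord C → ∃ a < K.ord, a ∈ C ∧ a.toZFSet ∈ x) → ∃ U, HMeas K.ord U ∧ x ∈ U

/-- There is a set `Ξ` of fewer than `l` ordinals such that each subset `x` of `K` in HOD, for which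
the set of the `ν ∈ x` with `δ₁ < cof ν` and `cof ν` not in `Ξ` is stationary in `V`, belongs to a
normal measure of HOD on `K` whose Mitchell rank is at least the successor of `K` in HOD; and, for
all `ν` in a club subset of `K` with `δ₁ < cof ν` and `cof ν` not in `Ξ`, there is a normal measure
of HOD on `ν` whose Mitchell rank is at least the successor of `ν` in HOD. -/
def RkM (l δ₁ : Ordinal.{u}) (K : Cardinal.{u}) : Prop :=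
  ∃ Ξ : Set Ordinal.{u}, Few l Ξ ∧
    (∀ x, HOD x → x ⊆ K.ord.toZFSet → (∀ C, Clb K.ord C → ∃ ν < K.ord, ν ∈ C ∧ ν.toZFSet ∈ x ∧
      δ₁ < ν.cof.ord ∧ ν.cof.ord ∉ Ξ) → ∃ U, MGe K.ord (hs K.ord) U ∧ x ∈ U) ∧
    ∃ C, Clb K.ord C ∧ ∀ ν ∈ C, ν < K.ord → δ₁ < ν.cof.ord → ν.cof.ord ∉ Ξ →
      ∃ U, MGe ν (hs ν) U

namespace All

theorem qf : T_QF.{u} := Pool.Agent.H49.HDA.QF.X ek
theorem cov : T_COV.{u} := Pool.Agent.H77.HDA.COV.X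
theorem srg : T_SRG.{u} := Pool.Agent.H77.HDA.SRG.srg
theorem exx : T_EX.{u} := Pool.Agent.H77.HDA.EX.X srg
theorem hmi : T_HMI.{u} := Pool.Agent.H89.HDA.HMI.X
theorem rkk : T_RK.{u} := Pool.Agent.H60.HDA.RK.X
theorem cs2 : T_CS2.{u} := Pool.Agent.H59.HD.pf_CS2
theorem cvr : T_CVR.{u} := Pool.Agent.H63.HDA.CVR.X
theorem dgc : T_DG.{u} := Pool.Agent.H3.HD11.dg
theorem mlc : T_MLC.{u} := Pool.Agent.H3.HD11.mlc hmi
theorem hsl : T_HS.{u} := Pool.Agent.H90.HDA.HS.X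
theorem nrr : T_NR.{u} := Pool.Agent.H64.HDA.NR.X
theorem hsd : T_HSD.{u} := Pool.Agent.H86.HDA.HSD.hsd
theorem sh2 : T_SH2.{u} := Pool.Agent.H86.HDA.SH2.sh2
theorem uq : T_UQ.{u} := Pool.Agent.H69.HDA.UQ.X
theorem li : T_LI.{u} := Pool.Agent.H63.HDA.LI.X hmi
theorem dnn : T_DN.{u} := Pool.Agent.H64.HDA.DN.X hmi li mlc dgc rkk

theorem gdd : T_GDD.{u} := Pool.Agent.H56.HDA.GDD.X cov
theorem nxx : T_NX.{u} := Pool.Agent.H91.HDA.NX.X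
theorem ldd : T_LD.{u} := Pool.Agent.H68.HE.LD.pf_LD
theorem vq : T_VQ.{u} := Pool.Agent.H91.HDA.VQ.X
theorem upp : T_UP.{u} := Pool.Agent.H63.HDA.UP.X hmi li mlc dgc rkk dnn
theorem lmm : T_LMM.{u} := Pool.Agent.H54.HDA.LMM.X cov vq
theorem tpp : T_TP.{u} := Pool.Agent.H86.HDA.TP.tp gdd
theorem co1 : T_CO1.{u} := Pool.Agent.H60.HDA.CO1.X gdd nxx
theorem po2 : T_PO2.{u} := Pool.Agent.H86.HDA.PO2.po2 ldd uq
theorem no2 : T_NO2.{u} := Pool.Agent.H69.HDA.NO2.X sh2 ldd uq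
theorem whh : T_WH.{u} := Pool.Agent.H69.HDA.WH.X ldd uq
theorem nmm : T_NM.{u} := Pool.Agent.H90.HDA.NM.X whh
theorem wn2 : T_WN2.{u} := Pool.Agent.H90.HDA.WN2.X whh vq nrr
theorem pbb : T_PB.{u} := Pool.Agent.H7.HDA.PB.X nxx lmm co1 po2 no2 cvr nmm nrr wn2 hmi rkk hsd upp
theorem nsta : T_N.{u} := Pool.Agent.H7.HDA.N.X qf exx nxx lmm tpp po2 no2 cvr nmm cs2 hmi hsd

/-- the theorem on the Mitchell rank -/
theorem rk_of {D' D K : Cardinal.{u}} (hD' : GoodN D') (hWD' : GoodW D')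
    (hD : GoodN D) (hWD : GoodW D) (hDD : D' < D) (hK : K.IsRegular) (hDK : succ D < K)
    {l : Ordinal.{u}} (hl : l ≤ D'.ord) (hfew : Few l (PC K)) : RkM l D'.ord K := by
  obtain ⟨Ξ, hΞ, ⟨C, hC, h2⟩, h1⟩ := Pool.Agent.H7.HDA.MO2.X qf nxx lmm co1 po2 no2 cvr nmm
    nrr wn2 hmi rkk hsd upp hsl pbb nsta hD' hWD' hD hWD hDD hK hDK hl hfew
  refine ⟨Ξ, hΞ, fun x hx hxK hst => h1 x hx hxK fun C' hC' => ?_, C, hC,
    fun ν g1 g2 g3 g4 => h2 ν g1 g2 (Cardinal.ord_lt_ord.1 g3) g4⟩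
  obtain ⟨ν, g1, g2, g3, g4, g5⟩ := hst C' hC'
  exact ⟨ν, g1, g2, g3, Cardinal.ord_lt_ord.1 g4, g5⟩

/-- extendible cardinals -/
theorem m16 (δ : Ordinal.{u}) (hδ : Extendible δ) : CaseA δ ∨ ∀ l < δ, ∃ δ₁ δ₀,
      l < δ₁ ∧ δ₁ < δ₀ ∧ δ₀ < δ ∧ ∀ K : Cardinal.{u}, K.IsRegular → δ₀ < K.ord →
        Few l (PC K) → StM K ∧ RkM l δ₁ K := by
  by_cases hA : CaseA δ
  · exact Or.inl hA
  refine Or.inr fun l hl => ?_
  obtain ⟨D', h1, h2, h3, h4⟩ := gr δ hδ hA l hl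
  obtain ⟨D, g1, g2, g3, g4⟩ := gr δ hδ hA D'.ord h1
  obtain ⟨η, -, θ, j, hj⟩ := xa δ hδ 0
  obtain ⟨E, hE, -, h5, -⟩ := xb δ η θ j hj
  have hDD : D' < D := Cardinal.ord_lt_ord.1 g2
  refine ⟨D'.ord, (succ D).ord, h2, g2.trans (Cardinal.ord_lt_ord.2 (lt_succ D)), ?_,
    fun K hK hDK hfew => ?_⟩
  · rw [hE] at g1 ⊢
    exact Cardinal.ord_lt_ord.2 (h5.isSuccLimit.succ_lt (Cardinal.ord_lt_ord.1 g1))
  · have hDK' := Cardinal.ord_lt_ord.1 hDK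
    exact ⟨nsta D K g3 g4 hK hDK' (Pool.Agent.H7.HDA.few_le hfew (h2.trans g2).le),
      rk_of h3 h4 g3 g4 hDD hK hDK' h2.le hfew⟩

end All

end HD
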