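import Pool.Agent.H7.HD.Targets11
import Pool.Agent.H7.HD9.Asm9
import Pool.Agent.H20.HD9.LX

/-!
# MP_e37c09_lc: auxiliary theorems for the assembly of the eleventh list of modules
-/

open Ordinal Cardinal Order Set
open scoped ZFSet

universe u

namespace Pool.Agent.H7.HDA

open _root_.HD

variable {en : Ordinal.{u} → ZFSet.{u}} {D G K : Cardinal.{u}} {lam : Ordinal.{u}}
  {Q : Ordinal.{u} → Ordinal.{u} → Prop} {f : Ordinal.{u} → Ordinal.{u}}
  {t : Ordinal.{u} → Ordinal.{u} → Ordinal.{u}} {X : Set Ordinal.{u}}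

theorem few_sub {δ : Ordinal.{u}} {A B : Set Ordinal.{u}} (h : Few δ B) (hAB : A ⊆ B) : Few δ A := by
  obtain ⟨τ, hτ, e, he⟩ := h
  exact ⟨τ, hτ, e, fun x hx => he x (hAB hx)⟩

theorem few_le {δ δ' : Ordinal.{u}} {A : Set Ordinal.{u}} (h : Few δ A) (hd : δ ≤ δ') : Few δ' A := by
  obtain ⟨τ, hτ, e, he⟩ := h
  exact ⟨τ, hτ.trans_le hd, e, he⟩

theorem ds_univ : DS (univ : Set Ordinal.{u}) := (DO.cst True).congr fun w => by simp

theorem ne_K (hK : K.IsRegular) (hK0 : ℵ₀ < K) : NE K lam K.ord := by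
  refine ⟨by rw [hK.cof_ord]; exact hK0, fun τ hτ => ?_⟩
  rw [hK.cof_ord]
  exact hτ.2.2.2

/-- `(Tg, gg)` is minimal at almost all points -/
theorem lmW (hLMM : T_LMM.{u}) (hNX : T_NX.{u}) (hen : EN en) (hDr : D.IsRegular) (hD0 : ℵ₀ < D)
    (hK : K.IsRegular) (hDK : D < K) (hVF : VF K) (ht : Prf t) (hEQ : EQ K lam Q f)
    (hX : ∀ ξ ∈ X, RegHOD ξ) {W : Ultrafilter Ordinal.{u}} (hW : WN D K.ord W)
    (hfew : Few D.ord {τ | Exc K lam τ}) :
    {ν | LM en t X ν (Tg K X Q f t) (gg K X Q f t)} ∈ W := by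
  have hK0 : ℵ₀ < K := hD0.trans hDK
  obtain ⟨C, hC, h1⟩ := hLMM en hen K lam Q f t X hK hK0 hVF ht hEQ hX
  have h2 := Pool.Agent.H20.HD9.LX.club_mem hW (Cardinal.isSuccLimit_ord hK0.le) hC
  filter_upwards [h2, hNX D K lam W hDr hD0 hK hDK hW hfew, hW.lt] with ν h3 h4 h5
  have h5' : ν < K.ord := h5
  exact h1 ν h5'.le (Or.inl h3) h4

/-- the family of atoms -/
theorem fam (hPO2 : T_PO2.{u}) (hNO2 : T_NO2.{u}) (hCVR : T_CVR.{u}) (hen : EN en) (hB : BG D D)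
    (hK : K.IsRegular) (hDK : succ D < K) (ht : Prf t) (hX : DS X) {T : Set Ordinal.{u}}
    {g : Ordinal.{u} → Ordinal.{u}} (hLM : LM en t X K.ord T g) {W : Ultrafilter Ordinal.{u}}
    (hW : WN D K.ord W) (hLMW : {ν | LM en t X ν T g} ∈ W) :
    ∃ I : Set Ordinal.{u}, DS I ∧ Few (succ D).ord I ∧ (∀ c ∈ I, AtP en (Pg K.ord T g t) c) ∧
      ¬ Pg K.ord T g t {b | ∀ c ∈ I, b ∉ E en c} := by
  have hD1 : (succ D).IsRegular := Cardinal.isRegular_succ hB.dreg.aleph0_le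
  have hK0 : ℵ₀ < K := hB.dunc.trans ((lt_succ D).trans hDK)
  have hPO := hPO2 en hen t X K T g ht hX hK hK0 hLM
  have hno := hNO2 en hen t X T g D D K W ht hX hB hK hDK hW hLMW
  refine hCVR en hen (succ D) K.ord _ hPO hD1 (hB.dunc.trans (lt_succ D))
    (by rw [hK.cof_ord]; exact hDK) hno fun Y hY hPY => ?_
  refine All.ab en hen (succ D).ord K.ord _ hPO (by rw [hK.cof_ord]; exact hK0)
    (by rw [hK.cof_ord, Cardinal.card_ord]; exact hDK) (fun τ hτ => ?_) hno Y hY hPY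
  obtain ⟨β, hβ, h1⟩ := All.pk D D K hB hK ((lt_succ D).trans hDK) τ
    (hτ.trans (Cardinal.ord_lt_ord.2 hDK))
  exact ⟨β, by rw [hK.cof_ord]; exact Cardinal.lt_ord.1 hβ, h1⟩

/-- the points which are inaccessible in HOD contain a club -/
theorem reg_club (hD : GoodN D) (hK : K.IsRegular) (hDK : D < K) :
    ∃ C, Clb K.ord C ∧ ∀ α ∈ C, α < K.ord → RegHOD α := by
  obtain ⟨C, hC, h⟩ := All.kd D K hD hK hDK
  exact ⟨C, hC, fun α h1 h2 => (h α h1 h2).2.1⟩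

/-- positivity of the whole family -/
theorem pg_univ {T : Set Ordinal.{u}} {g : Ordinal.{u} → Ordinal.{u}} {κ : Ordinal.{u}}
    (h : Pos om κ T) : Pg κ T g t univ := Pos.mono h fun _ _ hb _ => ⟨hb, mem_univ _⟩

end Pool.Agent.H7.HDA
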