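import Pool.Agent.H7.HDA.N

/-!
# MP_e37c09_lc: measures through a set which contains almost all points of large cofinality
-/

open Ordinal Cardinal Order Set
open scoped ZFSet

universe u

namespace Pool.Agent.H7.HDA.Lm

open _root_.HD Pool.Agent.H7.HDA

theorem clb_univ {K : Cardinal.{u}} (hK0 : ℵ₀ < K) : Clb K.ord (univ : Set Ordinal.{u}) :=
  ⟨fun a ha => ⟨succ a, (Cardinal.isSuccLimit_ord hK0.le).succ_lt ha, lt_succ a, trivial⟩,
    fun _ _ _ _ => trivial⟩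

theorem clb_gt {K : Cardinal.{u}} (hK0 : ℵ₀ < K) {τ : Ordinal.{u}} (hτ : τ < K.ord) :
    Clb K.ord {x | τ < x} := by
  refine ⟨fun a ha => ⟨succ (max a τ), (Cardinal.isSuccLimit_ord hK0.le).succ_lt (max_lt ha hτ),
    (le_max_left a τ).trans_lt (lt_succ _), (le_max_right a τ).trans_lt (lt_succ _)⟩,
    fun x _ h0 h => ?_⟩
  obtain ⟨z, hz, -, hz2⟩ := h 0 h0
  exact lt_trans hz2 hz

/-- the two conclusions -/
theorem X (hNX : T_NX.{u}) (hLMM : T_LMM.{u}) (hCO1 : T_CO1.{u}) (hPO2 : T_PO2.{u})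
    (hNO2 : T_NO2.{u}) (hCVR : T_CVR.{u}) (hNM : T_NM.{u}) (hNR : T_NR.{u}) (hWN2 : T_WN2.{u})
    {D' D K : Cardinal.{u}} {lam : Ordinal.{u}} {Q : Ordinal.{u} → Ordinal.{u} → Prop}
    {f : Ordinal.{u} → Ordinal.{u}} (hD' : GoodN D') (hWD' : GoodW D') (hD : GoodN D)
    (hWD : GoodW D) (hDD : D' < D) (hK : K.IsRegular) (hDK : succ D < K) (hEQ : EQ K lam Q f)
    (hfew : Few D'.ord {τ | Exc K lam τ}) {X : Set Ordinal.{u}} (hXD : DS X)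
    (hXR : ∀ ξ ∈ X, RegHOD ξ) {C0 : Set Ordinal.{u}} (hC0 : Clb K.ord C0)
    (hC0X : ∀ ν ∈ C0, St D' D K lam ν → ν ∈ X) :
    (∃ W, NMe K.ord W ∧ os K.ord X ∈ W) ∧ ∃ C, Clb K.ord C ∧ ∀ ν ∈ C, ν < K.ord →
      D' < ν.cof → NE K lam ν → ∃ W, NMe ν W ∧ os ν X ∈ W := by
  classical
  have hB' := All.bA D' hD' hWD'
  have hB := All.bA D hD hWD
  have hDK' : D < K := (lt_succ D).trans hDK
  have hK0 : ℵ₀ < K := hB.dunc.trans hDK'
  have hKc : K.ord.cof = K := hK.cof_ord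
  have hKc0 : ℵ₀ < K.ord.cof := by rw [hKc]; exact hK0
  have hD'K : D' < K := hDD.trans hDK'
  have hsD : succ D' < K := (Order.succ_le_of_lt hDD).trans_lt hDK'
  have hVF := All.ac D D K hB hK hDK
  obtain ⟨en, hen⟩ := All.en.{u}
  obtain ⟨t, ht1, ht2, ht3⟩ := All.pr.{u}
  have ht : Prf t := ⟨ht1, ht2, ht3⟩
  obtain ⟨C3, hC3, hLM⟩ := hLMM en hen K lam Q f t X hK hK0 hVF ht hEQ hXR
  have hLMK := hLM K.ord le_rfl (Or.inr rfl) (ne_K hK hK0)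
  obtain ⟨W1, hW1⟩ := hWD' K.ord (by rw [hKc]; exact hD'K.le)
  obtain ⟨W2, hW2⟩ := hWD K.ord (by rw [hKc]; exact hDK'.le)
  have hLMW := lmW hLMM hNX hen hB'.dreg hB'.dunc hK hD'K hVF ht hEQ hXR hW1 hfew
  obtain ⟨I, -, hIf, hI, hcov⟩ := fam hPO2 hNO2 hCVR hen hB' hK hsD ht hXD hLMK hW1 hLMW
  have hnull := hCO1 D' D K lam Q f t X C0 W2 hB'.dreg hB.dreg hB.dunc hDD hK hDK' hW2 ht hEQ
    (few_le hfew (Cardinal.ord_le_ord.2 hDD.le)) hC0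
    fun ν h1 h2 => ⟨hC0X ν h1 h2, hXR ν (hC0X ν h1 h2)⟩
  constructor
  · -- the measure on `K`
    have hne : ∃ c, c ∈ I := by
      by_contra hcon
      push Not at hcon
      refine null_union All.va hKc0 hnull hcov (Pos.mono
        (All.vc ℵ₀ K.ord Cardinal.isRegular_aleph0 hKc0) fun b _ _ _ => ?_)
      by_cases hb : b ∈ Tg K X Q f t
      · exact Or.inr ⟨hb, fun c hc => absurd hc (hcon c)⟩
      · exact Or.inl hb
    obtain ⟨c, hc⟩ := hne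
    exact ⟨_, hNM en hen t X K _ _ c ht hXD hK hK0 hLMK (hI c hc)⟩
  -- the measures on the `ν`
  obtain ⟨C1, hC1, h1⟩ := hNR K hK hK0 _ hnull
  obtain ⟨C2, hC2, h2⟩ := hNR K hK hK0 _ hcov
  obtain ⟨τ, hτ, e, he⟩ := hIf
  have hτK : τ < K.ord := hτ.trans (Cardinal.ord_lt_ord.2 hsD)
  have hex : ∀ i : Ordinal.{u}, ∃ C, Clb K.ord C ∧ (e i ∈ I → ∀ ν ∈ C, ν < K.ord → ℵ₀ < ν.cof →
      LM en t X ν (Tg K X Q f t) (gg K X Q f t) →
      Pg ν (Tg K X Q f t) (gg K X Q f t) t (E en (e i)) →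
      NMe ν (wz en ν (Tg K X Q f t) (gg K X Q f t) t (e i)) ∧
        os ν X ∈ wz en ν (Tg K X Q f t) (gg K X Q f t) t (e i)) := by
    intro i
    by_cases hi : e i ∈ I
    · obtain ⟨C, hC, h⟩ := hWN2 en hen t X K lam Q f _ _ (e i) ht hXD hK hK0 hVF hEQ hLMK
        (hI _ hi)
      exact ⟨C, hC, fun _ => h⟩
    · exact ⟨univ, clb_univ hK0, fun h => absurd h hi⟩
  choose C4 hC4 h4 using hex
  have hdiag := Pool.Agent.H33.HD.VD.diag hK hK0 C4 fun a _ => hC4 a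
  have hci := fun (A B : Set Ordinal.{u}) (hA : Clb K.ord A) (hB : Clb K.ord B) =>
    All.ci K.ord A B hKc0 hA hB
  refine ⟨_, hci _ _ hC1 (hci _ _ hC2 (hci _ _ hC3 (hci _ _ hdiag (clb_gt hK0 hτK)))), ?_⟩
  rintro ν ⟨hν1, hν2, hν3, ⟨-, hν4⟩, hν5⟩ hνK hν6 hNE
  have hν0 : ℵ₀ < ν.cof := hNE.1
  have hLMν := hLM ν hνK.le (Or.inl hν3) hNE
  have hex : ∃ i < τ, e i ∈ I ∧ Pg ν (Tg K X Q f t) (gg K X Q f t) t (E en (e i)) := by
    by_contra hcon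
    push Not at hcon
    have hcard : τ.card < ν.cof := by
      have h5 : τ.card < succ D' := Cardinal.lt_ord.1 hτ
      exact (Order.lt_succ_iff.1 h5).trans_lt hν6
    have h5 := All.va om ν hν0 τ hcard (fun i => {γ | e i ∈ I ∧ γ ∈ Tg K X Q f t ∧
      t γ (gg K X Q f t γ) ∈ E en (e i)}) (fun i hi hP => by
        obtain ⟨b, -, -, h6, -⟩ := hP univ ⟨fun a ha => ⟨succ a,
          (Ordinal.one_lt_cof_iff.1 (Cardinal.one_lt_aleph0.trans hν0)).succ_lt ha, lt_succ a,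
            trivial⟩, fun _ _ _ _ => trivial⟩
        exact hcon i hi h6.1 (Pos.mono hP fun _ _ h7 _ => h7.2))
    have h6 := null_union All.va hν0 h5 (h2 ν hν2 hνK hν0)
    refine null_union All.va hν0 (h1 ν hν1 hνK hν0) h6
      (Pos.mono (All.vc ℵ₀ ν Cardinal.isRegular_aleph0 hν0) fun b _ _ _ => ?_)
    by_cases hb : b ∈ Tg K X Q f t
    · refine Or.inr ?_
      by_cases hb2 : ∀ c ∈ I, t b (gg K X Q f t b) ∉ E en c
      · exact Or.inr ⟨hb, hb2⟩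
      · push Not at hb2
        obtain ⟨c, hc, hbc⟩ := hb2
        obtain ⟨i, hi, rfl⟩ := he c hc
        exact Or.inl ⟨i, hi, hc, hb, hbc⟩
    · exact Or.inl hb
  obtain ⟨i, hi, hiI, hP⟩ := hex
  have hν5' : τ < ν := hν5
  exact ⟨_, h4 i hiI ν (hν4 i (hi.trans hν5')) hνK hν0 hLMν hP⟩

end Pool.Agent.H7.HDA.Lm
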