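import Pool.Agent.H7.HDA.PB

/-!
# MP_e37c09_lc, row MO: the Mitchell order is greater than the successor in HOD
-/

open Ordinal Cardinal Order Set
open scoped ZFSet

universe u

namespace Pool.Agent.H7.HDA.MO

open _root_.HD Pool.Agent.H7.HDA

/-- the points which have measures of all ranks less than the successor in HOD -/
def Xo : Set Ordinal.{u} := {ξ | RegHOD ξ ∧ ∀ ζ < hs ξ, ∃ U, MGe ξ ζ U}

theorem ds_Xo (hHSD : T_HSD.{u}) : DS Xo.{u} := by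
  refine DO.and hHSD.2.1 ?_
  refine (DO.ex (R := fun h w => h = hs (w 0) ∧ ∀ ζ < h, ∃ U, MGe (w 0) ζ U)
    (DO.and (DO.s2 (X := fun a b => b = hs a) hHSD.1 1 0) ?_)).congr fun w => by simp
  refine DO.allLt (R := fun ζ w => ∃ U, MGe (w 1) ζ U) 0 ?_
  exact DO.s2 (X := fun a b => ∃ U, MGe a b U) All.dm 2 0

/-- a measure which contains `Xo` is of rank at least the successor in HOD -/
theorem top (hHMI : T_HMI.{u}) (hRK : T_RK.{u}) (hHSD : T_HSD.{u}) (hUP : T_UP.{u})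
    {κ : Ordinal.{u}} {W : ZFSet.{u}} (hW : NMe κ W) (hXW : os κ Xo ∈ W) : MGe κ (hs κ) W := by
  rw [MGe]
  refine ⟨(hHMI _ _).2 hW, ?_⟩
  rintro ⟨ζ, hζ⟩
  have hex : ∃ (π : Ordinal.{u} → Ordinal.{u}) (a : Ordinal.{u}), (DR fun a b => b = π a) ∧
      Rk π κ a = ζ := by
    rcases (zero_le (a := ζ)).eq_or_lt with h0 | h0
    · refine ⟨fun _ => 0, 0, DO.eqc 1 0, ?_⟩
      rw [← h0]
      by_contra hne
      have h1 : 0 < Rk (fun _ => 0) κ 0 := pos_iff_ne_zero.2 hne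
      obtain ⟨j, -, hj, -⟩ := ((hRK (fun _ => 0)).1 κ 0 0).1 h1
      exact absurd hj (lt_irrefl _)
    · obtain ⟨π, h1, h2, h3⟩ := hHSD.2.2 κ ζ h0 hζ
      exact ⟨π, ζ, h1, (hRK π).2.2 κ ζ h2 h3⟩
  obtain ⟨π, a, hπ, rfl⟩ := hex
  refine hUP π hπ a κ W hW ?_
  have hY : DS {b | ∃ U, MGe b (Rk π b a) U} := by
    refine DO.sub (R := fun p w => ∃ U, MGe (w 0) (Rk π (w 0) p) U) a ?_
    exact DO.s2 (X := fun a b => ∃ U, MGe a (Rk π a b) U) (PB.do_rk hRK hπ) 1 0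
  have hgt : DS {b : Ordinal.{u} | 0 < b} := DO.gtc 0 0
  have hXg : DS (Xo ∩ {b : Ordinal.{u} | 0 < b}) := DO.and (ds_Xo hHSD) hgt
  refine hW.up _ _ hXg hY (hW.int _ _ (ds_Xo hHSD) hgt hXW (hW.gt 0 hW.lim.bot_lt)) fun b _ hb => ?_
  exact hb.1.2 _ (((hRK π).2.1 hπ).2 b a hb.2)

theorem X (hQF : T_QF.{u}) (hNX : T_NX.{u}) (hLMM : T_LMM.{u}) (hCO1 : T_CO1.{u})
    (hPO2 : T_PO2.{u}) (hNO2 : T_NO2.{u}) (hCVR : T_CVR.{u}) (hNM : T_NM.{u}) (hNR : T_NR.{u})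
    (hWN2 : T_WN2.{u}) (hHMI : T_HMI.{u}) (hRK : T_RK.{u}) (hHSD : T_HSD.{u}) (hUP : T_UP.{u})
    (hHS : T_HS.{u}) (hPB : T_PB.{u}) : T_MO.{u} := by
  intro D' D K hD' hWD' hD hWD hDD hK hDK hfew
  have hB := All.bA D hD hWD
  have hDK' : D < K := (lt_succ D).trans hDK
  have hK0 : ℵ₀ < K := hD.2.2.1.trans hDK'
  have hKc0 : ℵ₀ < K.ord.cof := by rw [hK.cof_ord]; exact hK0
  obtain ⟨lam, Q, f, hEQ, -, hf2⟩ := N.enumK hQF hB hK hDK' hfew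
  have hVF := All.ac D D K hB hK hDK
  obtain ⟨π, A, C1, hπ, hC1, h1⟩ := hHS K hK hK0 hVF
  have hex := fun η => hPB D' D K lam Q f hD' hWD' hD hWD hDD hK hDK hEQ hf2 (π η) (hπ η) (A η)
  choose C2 hC2 h2 using hex
  have hdiag := Pool.Agent.H33.HD.VD.diag hK hK0 C2 fun j _ => hC2 j
  obtain ⟨C3, hC3, h3⟩ := reg_club hD hK hDK'
  have hXR : ∀ ξ ∈ Xo.{u}, RegHOD ξ := fun ξ hξ => hξ.1
  have hC0 := All.ci K.ord _ _ hKc0 hC1 (All.ci K.ord _ _ hKc0 hdiag hC3)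
  obtain ⟨⟨W, hW, hXW⟩, C, hC, h4⟩ := Lm.X hNX hLMM hCO1 hPO2 hNO2 hCVR hNM hNR hWN2 hD' hWD' hD
    hWD hDD hK hDK hEQ hf2 (ds_Xo hHSD) hXR hC0 (by
      rintro ν ⟨hν1, ⟨hν0, hν2⟩, hν3⟩ hSt
      refine ⟨h3 ν hν3 hSt.1, fun ζ hζ => ?_⟩
      rcases (zero_le (a := ζ)).eq_or_lt with h0 | h0
      · obtain ⟨U, hU⟩ := h2 0 ν (hν2 0 hν0) hSt
        rw [MGe] at hU
        refine ⟨U, ?_⟩
        rw [MGe]
        refine ⟨hU.1, ?_⟩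
        rintro ⟨z, hz⟩
        have hz' : z < ζ := hz
        rw [← h0] at hz'
        exact absurd hz' not_lt_zero
      · obtain ⟨η, hη, he⟩ := h1 ν hν1 hSt.1 ζ hζ h0
        obtain ⟨U, hU⟩ := h2 η ν (hν2 η hη) hSt
        rw [he] at hU
        exact ⟨U, hU⟩)
  refine ⟨⟨W, top hHMI hRK hHSD hUP hW hXW⟩, {x | ∃ τ, Exc K lam τ ∧ x = τ.cof.ord}, ?_, C, hC,
    fun ν hν hνK g1 g2 g3 => ?_⟩
  · obtain ⟨τ, hτ, e, he⟩ := hf2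
    refine ⟨τ, hτ, fun i => (e i).cof.ord, ?_⟩
    rintro x ⟨σ, hσ, rfl⟩
    obtain ⟨i, hi, rfl⟩ := he σ hσ
    exact ⟨i, hi, rfl⟩
  · obtain ⟨U, hU, hXU⟩ := h4 ν hν hνK g1 ⟨hD'.2.2.1.trans g1, fun τ hτ he =>
      g3 ⟨τ, hτ, by rw [he]⟩⟩
    exact ⟨U, top hHMI hRK hHSD hUP hU hXU⟩

end Pool.Agent.H7.HDA.MO
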