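import Pool.Agent.H7.HDA.MO

/-!
# MP_e37c09_lc: stationary sets in HOD and the Mitchell rank
-/

open Ordinal Cardinal Order Set
open scoped ZFSet

universe u

namespace Pool.Agent.H7.HDA.MO2

open _root_.HD Pool.Agent.H7.HDA

theorem mge_mono {κ ξ ζ : Ordinal.{u}} {U : ZFSet.{u}} (h : MGe κ ξ U) (hζ : ζ ≤ ξ) :
    MGe κ ζ U := by
  rw [MGe] at h ⊢
  exact ⟨h.1, fun i => h.2 ⟨i.1, lt_of_lt_of_le i.2 hζ⟩⟩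

/-- the points which have a measure of rank at least the successor in HOD -/
def Yo : Set Ordinal.{u} := {ξ | RegHOD ξ ∧ ∃ U, MGe ξ (hs ξ) U}

theorem ds_Yo (hHSD : T_HSD.{u}) : DS Yo.{u} := by
  refine DO.and hHSD.2.1 ?_
  refine (DO.ex (R := fun h w => h = hs (w 0) ∧ ∃ U, MGe (w 0) h U)
    (DO.and (DO.s2 (X := fun a b => b = hs a) hHSD.1 1 0) ?_)).congr fun w => by simp
  exact DO.s2 (X := fun a b => ∃ U, MGe a b U) All.dm 1 0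

/-- the theorem with a given enumeration of the subsets of `K` in HOD -/
theorem X0 (hNX : T_NX.{u}) (hLMM : T_LMM.{u}) (hCO1 : T_CO1.{u})
    (hPO2 : T_PO2.{u}) (hNO2 : T_NO2.{u}) (hCVR : T_CVR.{u}) (hNM : T_NM.{u}) (hNR : T_NR.{u})
    (hWN2 : T_WN2.{u}) (hHMI : T_HMI.{u}) (hRK : T_RK.{u}) (hHSD : T_HSD.{u}) (hUP : T_UP.{u})
    (hHS : T_HS.{u}) (hPB : T_PB.{u}) (hN : T_N.{u}) {D' D K : Cardinal.{u}}
    {lam : Ordinal.{u}} {Q : Ordinal.{u} → Ordinal.{u} → Prop} {f : Ordinal.{u} → Ordinal.{u}}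
    (hD' : GoodN D') (hWD' : GoodW D') (hD : GoodN D) (hWD : GoodW D) (hDD : D' < D)
    (hK : K.IsRegular) (hDK : succ D < K) (hEQ : EQ K lam Q f)
    (hf3 : Few D'.ord {τ | Exc K lam τ}) (hfew : Few D.ord (PC K)) :
    (∃ C, Clb K.ord C ∧ ∀ ν ∈ C, ν < K.ord → D' < ν.cof → NE K lam ν →
        ∃ U, MGe ν (hs ν) U) ∧
      ∀ x, HOD x → x ⊆ K.ord.toZFSet → (∀ C, Clb K.ord C → ∃ ν < K.ord, ν ∈ C ∧ ν.toZFSet ∈ x ∧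
        D' < ν.cof ∧ NE K lam ν) → ∃ U, MGe K.ord (hs K.ord) U ∧ x ∈ U := by
  have hB := All.bA D hD hWD
  have hDK' : D < K := (lt_succ D).trans hDK
  have hK0 : ℵ₀ < K := hD.2.2.1.trans hDK'
  have hKc0 : ℵ₀ < K.ord.cof := by rw [hK.cof_ord]; exact hK0
  have hVF := All.ac D D K hB hK hDK
  obtain ⟨π, A, C1, hπ, hC1, h1⟩ := hHS K hK hK0 hVF
  have hex := fun η => hPB D' D K lam Q f hD' hWD' hD hWD hDD hK hDK hEQ hf3 (π η) (hπ η) (A η)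
  choose C2 hC2 h2 using hex
  have hdiag := Pool.Agent.H33.HD.VD.diag hK hK0 C2 fun j _ => hC2 j
  obtain ⟨C3, hC3, h3⟩ := reg_club hD hK hDK'
  have hXR : ∀ ξ ∈ MO.Xo.{u}, RegHOD ξ := fun ξ hξ => hξ.1
  have hC0 := All.ci K.ord _ _ hKc0 hC1 (All.ci K.ord _ _ hKc0 hdiag hC3)
  obtain ⟨-, C, hC, h4⟩ := Lm.X hNX hLMM hCO1 hPO2 hNO2 hCVR hNM hNR hWN2 hD' hWD' hD
    hWD hDD hK hDK hEQ hf3 (MO.ds_Xo hHSD) hXR hC0 (by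
      rintro ν ⟨hν1, ⟨hν0, hν2⟩, hν3⟩ hSt
      refine ⟨h3 ν hν3 hSt.1, fun ζ hζ => ?_⟩
      rcases (zero_le (a := ζ)).eq_or_lt with h0 | h0
      · obtain ⟨U, hU⟩ := h2 0 ν (hν2 0 hν0) hSt
        exact ⟨U, mge_mono hU (by rw [← h0]; exact zero_le)⟩
      · obtain ⟨η, hη, he⟩ := h1 ν hν1 hSt.1 ζ hζ h0
        obtain ⟨U, hU⟩ := h2 η ν (hν2 η hη) hSt
        rw [he] at hU
        exact ⟨U, hU⟩)
  have hC' : ∀ ν ∈ C, ν < K.ord → D' < ν.cof → NE K lam ν → ∃ U, MGe ν (hs ν) U := by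
    intro ν hν hνK g1 g2
    obtain ⟨U, hU, hXU⟩ := h4 ν hν hνK g1 g2
    exact ⟨U, MO.top hHMI hRK hHSD hUP hU hXU⟩
  refine ⟨⟨C, hC, hC'⟩, fun x hx hxK hst => ?_⟩
  have hxD : DS {a | a.toZFSet ∈ x} := hx.od.ds
  have hYD : DS (Yo ∩ {a | a.toZFSet ∈ x}) := DO.and (ds_Yo hHSD) hxD
  obtain ⟨U, hU, hxU⟩ := hN D K hD hWD hK hDK hfew (os K.ord (Yo ∩ {a | a.toZFSet ∈ x}))
    (hod_os hYD _) (fun z hz => by
      obtain ⟨a, ha, -, rfl⟩ := mem_os.1 hz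
      exact toZFSet_mem_toZFSet_iff.2 ha) (fun C' hC'' => by
      obtain ⟨ν, g1, g2, g3, g4, g5⟩ := hst _ (All.ci K.ord _ _ hKc0 hC''
        (All.ci K.ord _ _ hKc0 hC hC3))
      exact ⟨ν, g1, g2.1, mem_os.2 ⟨ν, g1, ⟨⟨h3 ν g2.2.2 g1, hC' ν g2.2.1 g1 g4 g5⟩, g3⟩, rfl⟩⟩)
  have hW := (hHMI _ _).1 hU
  refine ⟨U, MO.top hHMI hRK hHSD hUP hW (hW.up _ _ hYD (MO.ds_Xo hHSD) hxU fun b _ hb => ?_), ?_⟩
  · obtain ⟨⟨hb1, V, hV⟩, -⟩ := hb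
    exact ⟨hb1, fun ζ hζ => ⟨V, mge_mono hV hζ.le⟩⟩
  · have h6 : os K.ord {a | a.toZFSet ∈ x} = x := by
      ext z
      rw [mem_os]
      constructor
      · rintro ⟨a, -, ha, rfl⟩
        exact ha
      · intro hz
        obtain ⟨a, ha, rfl⟩ := mem_toZFSet_iff.1 (hxK hz)
        exact ⟨a, ha, hz, rfl⟩
    rw [← h6]
    exact hW.up _ _ hYD hxD hxU fun b _ hb => hb.2

/-- the exceptional cofinalities -/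
theorem exc_few {K : Cardinal.{u}} {lam l : Ordinal.{u}} (h : Few l {τ | Exc K lam τ}) :
    Few l {x | ∃ τ, Exc K lam τ ∧ x = τ.cof.ord} := by
  obtain ⟨τ, hτ, e, he⟩ := h
  refine ⟨τ, hτ, fun i => (e i).cof.ord, ?_⟩
  rintro x ⟨σ, hσ, rfl⟩
  obtain ⟨i, hi, rfl⟩ := he σ hσ
  exact ⟨i, hi, rfl⟩

theorem exc_ne {K : Cardinal.{u}} {lam ν : Ordinal.{u}} (h : ℵ₀ < ν.cof) :
    ν.cof.ord ∉ {x | ∃ τ, Exc K lam τ ∧ x = τ.cof.ord} ↔ NE K lam ν := by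
  constructor
  · intro h1
    exact ⟨h, fun τ hτ he => h1 ⟨τ, hτ, by rw [he]⟩⟩
  · rintro h1 ⟨τ, hτ, he⟩
    exact h1.2 τ hτ (Cardinal.ord_injective he).symm

theorem X (hQF : T_QF.{u}) (hNX : T_NX.{u}) (hLMM : T_LMM.{u}) (hCO1 : T_CO1.{u})
    (hPO2 : T_PO2.{u}) (hNO2 : T_NO2.{u}) (hCVR : T_CVR.{u}) (hNM : T_NM.{u}) (hNR : T_NR.{u})
    (hWN2 : T_WN2.{u}) (hHMI : T_HMI.{u}) (hRK : T_RK.{u}) (hHSD : T_HSD.{u}) (hUP : T_UP.{u})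
    (hHS : T_HS.{u}) (hPB : T_PB.{u}) (hN : T_N.{u}) {D' D K : Cardinal.{u}} (hD' : GoodN D')
    (hWD' : GoodW D') (hD : GoodN D) (hWD : GoodW D) (hDD : D' < D) (hK : K.IsRegular)
    (hDK : succ D < K) {l : Ordinal.{u}} (hl : l ≤ D'.ord) (hfew : Few l (PC K)) :
    ∃ Ξ : Set Ordinal.{u}, Few l Ξ ∧
      (∃ C, Clb K.ord C ∧ ∀ ν ∈ C, ν < K.ord → D' < ν.cof → ν.cof.ord ∉ Ξ →
        ∃ U, MGe ν (hs ν) U) ∧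
      ∀ x, HOD x → x ⊆ K.ord.toZFSet → (∀ C, Clb K.ord C → ∃ ν < K.ord, ν ∈ C ∧ ν.toZFSet ∈ x ∧
        D' < ν.cof ∧ ν.cof.ord ∉ Ξ) → ∃ U, MGe K.ord (hs K.ord) U ∧ x ∈ U := by
  have hB := All.bA D hD hWD
  have hDK' : D < K := (lt_succ D).trans hDK
  obtain ⟨lam, Q, f, hEQ, -, hf2⟩ := N.enumK hQF hB hK hDK' hfew
  obtain ⟨⟨C, hC, h1⟩, h2⟩ := X0 hNX hLMM hCO1 hPO2 hNO2 hCVR hNM hNR hWN2 hHMI hRK hHSD hUP hHS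
    hPB hN hD' hWD' hD hWD hDD hK hDK hEQ (few_le hf2 hl)
    (few_le hfew (hl.trans (Cardinal.ord_le_ord.2 hDD.le)))
  refine ⟨_, exc_few hf2, ⟨C, hC, fun ν g1 g2 g3 g4 => h1 ν g1 g2 g3
    ((exc_ne (hD'.2.2.1.trans g3)).1 g4)⟩, fun x hx hxK hst => h2 x hx hxK fun C' hC' => ?_⟩
  obtain ⟨ν, g1, g2, g3, g4, g5⟩ := hst C' hC'
  exact ⟨ν, g1, g2, g3, g4, (exc_ne (hD'.2.2.1.trans g4)).1 g5⟩

end Pool.Agent.H7.HDA.MO2
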