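import Pool.Agent.H7.HDA.Fam

/-!
# MP_e37c09_lc, row N: each stationary set in HOD belongs to a normal measure of HOD
-/

open Ordinal Cardinal Order Set
open scoped ZFSet

universe u

namespace Pool.Agent.H7.HDA.N

open _root_.HD

/-- the situation of the enumeration -/
theorem enumK (hQF : T_QF.{u}) {D K : Cardinal.{u}} (hB : BG D D) (hK : K.IsRegular) (hDK : D < K)
    {δ : Ordinal.{u}} (hfew : Few δ (PC K)) : ∃ lam Q f, EQ K lam Q f ∧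
      Few δ {τ | K.ord < τ ∧ τ ≤ lam ∧ CardHOD τ} ∧ Few δ {τ | Exc K lam τ} := by
  obtain ⟨lam, Q, f, hEQ, h1⟩ := hQF D D K hB hK hDK
  exact ⟨lam, Q, f, hEQ, few_sub hfew fun τ hτ => ⟨hτ.1, hτ.2.2, h1 τ hτ.1 hτ.2.1 hτ.2.2⟩,
    few_sub hfew fun τ hτ => ⟨hτ.1, hτ.2.2.1, h1 τ hτ.1 hτ.2.1 hτ.2.2.1⟩⟩

theorem X (hQF : T_QF.{u}) (hEX : T_EX.{u}) (hNX : T_NX.{u}) (hLMM : T_LMM.{u}) (hTP : T_TP.{u})
    (hPO2 : T_PO2.{u}) (hNO2 : T_NO2.{u}) (hCVR : T_CVR.{u}) (hNM : T_NM.{u}) (hCS2 : T_CS2.{u})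
    (hHMI : T_HMI.{u}) (hHSD : T_HSD.{u}) : T_N.{u} := by
  intro D K hD hWD hK hDK hfew x hx hxK hst
  have hB := All.bA D hD hWD
  have hDK' : D < K := (lt_succ D).trans hDK
  have hK0 : ℵ₀ < K := hB.dunc.trans hDK'
  have hKc : K.ord.cof = K := hK.cof_ord
  obtain ⟨en, hen⟩ := All.en.{u}
  obtain ⟨t, ht1, ht2, ht3⟩ := All.pr.{u}
  have ht : Prf t := ⟨ht1, ht2, ht3⟩
  obtain ⟨X0, hX0⟩ : ∃ X0 : Set Ordinal.{u}, X0 = {a | a.toZFSet ∈ x} := ⟨_, rfl⟩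
  have hX0D : DS X0 := by rw [hX0]; exact hx.od.ds
  have hxos : os K.ord X0 = x := by
    ext z
    rw [mem_os, hX0]
    constructor
    · rintro ⟨a, -, ha, rfl⟩
      exact ha
    · intro hz
      obtain ⟨a, ha, rfl⟩ := mem_toZFSet_iff.1 (hxK hz)
      exact ⟨a, ha, hz, rfl⟩
  have hst0 : ∀ C, Clb K.ord C → ∃ a < K.ord, a ∈ C ∧ a ∈ X0 := by
    intro C hC
    obtain ⟨a, h1, h2, h3⟩ := hst C hC
    exact ⟨a, h1, h2, by rw [hX0]; exact h3⟩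
  obtain ⟨lam, Q, f, hEQ, hf1, hf2⟩ := enumK hQF hB hK hDK' hfew
  rcases hCS2 D K X0 hB.dunc hK hDK' hst0 with ⟨M, hM, hMD, hpos⟩ | hcof
  · obtain ⟨c, hc1, hc2⟩ := hB.atm en hen M hM hMD K.ord (by rw [hKc]; exact hDK') X0 hX0D hpos
    refine ⟨uz en M.ord K.ord c, All.he en hen _ _ _ (All.hd en M.ord K c hK hK0 hc2), ?_⟩
    rw [Pool.Agent.H4.HD.HE.mem_uz]
    refine ⟨hxK, hx.od, fun h1 => ?_⟩
    obtain ⟨b, -, -, h2, -⟩ := h1 univ ⟨fun a ha => ⟨succ a,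
      (Cardinal.isSuccLimit_ord hK0.le).succ_lt ha, lt_succ a, trivial⟩, fun _ _ _ _ => trivial⟩
    have h3 := hc1 h2.1
    rw [hX0] at h3
    exact h2.2 h3
  -- points of cofinality at least `D`
  obtain ⟨CR, hCR, hCR2⟩ := reg_club hD hK hDK'
  obtain ⟨X, hXd⟩ : ∃ X : Set Ordinal.{u}, X = {a | a ∈ X0 ∧ RegHOD a} := ⟨_, rfl⟩
  have hXD : DS X := by
    rw [hXd]
    exact hX0D.and hHSD.2.1
  have hXR : ∀ ξ ∈ X, RegHOD ξ := fun ξ hξ => by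
    rw [hXd] at hξ
    exact hξ.2
  have hstX : ∀ C, Clb K.ord C → ∃ ξ < K.ord, ξ ∈ C ∧ ξ ∈ X ∧ RegHOD ξ ∧ NE K lam ξ := by
    intro C hC
    obtain ⟨a, h1, h2, h3, h4⟩ := hcof _ (All.ci K.ord C CR (by rw [hKc]; exact hK0) hC hCR)
    have h5 := hCR2 a h2.2 h1
    refine ⟨a, h1, h2.1, by rw [hXd]; exact ⟨h3, h5⟩, h5, hB.dunc.trans_le h4, fun τ hτ => ?_⟩
    have h6 := hEX D K lam hB.dreg hB.dunc hK hDK' hEQ.lt hf1 τ hτ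
    exact (h6.trans_le h4).ne
  have hVF := All.ac D D K hB hK hDK
  have hpos := hTP K lam Q f t X hK hK0 ht hEQ hstX
  obtain ⟨C, hC, hLM⟩ := hLMM en hen K lam Q f t X hK hK0 hVF ht hEQ hXR
  have hLMK := hLM K.ord le_rfl (Or.inr rfl) (ne_K hK hK0)
  obtain ⟨W, hW⟩ := hWD K.ord (by rw [hKc]; exact hDK'.le)
  have hLMW := lmW hLMM hNX hen hB.dreg hB.dunc hK hDK' hVF ht hEQ hXR hW hf2
  obtain ⟨I, -, -, hI, hcov⟩ := fam hPO2 hNO2 hCVR hen hB hK hDK ht hXD hLMK hW hLMW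
  have hne : ∃ c, c ∈ I := by
    by_contra hcon
    push Not at hcon
    exact hcov (Pos.mono hpos fun b _ hb _ => ⟨hb, fun c hc => absurd hc (hcon c)⟩)
  obtain ⟨c, hc⟩ := hne
  obtain ⟨h1, h2⟩ := hNM en hen t X K _ _ c ht hXD hK hK0 hLMK (hI c hc)
  refine ⟨_, (hHMI _ _).2 h1, ?_⟩
  have h3 := h1.up X X0 hXD hX0D h2 fun b _ hb => by
    rw [hXd] at hb
    exact hb.1
  rwa [hxos] at h3

end Pool.Agent.H7.HDA.N
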