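import Pool.Agent.H7.HDA.Lm

/-!
# MP_e37c09_lc, row PB: the induction
-/

open Ordinal Cardinal Order Set
open scoped ZFSet

universe u

namespace Pool.Agent.H7.HDA.PB

open _root_.HD Pool.Agent.H7.HDA

/-- definability of the rank of measures -/
theorem do_rk (hRK : T_RK.{u}) {π : Ordinal.{u} → Ordinal.{u}} (hπ : DR fun a b => b = π a) :
    DO fun w => ∃ U, MGe (w 0) (Rk π (w 0) (w 1)) U := by
  refine (DO.ex (R := fun r w => r = Rk π (w 0) (w 1) ∧ ∃ U, MGe (w 0) r U)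
    (DO.and ?_ ?_)).congr fun w => by simp
  · exact DO.s3 (X := fun a b c => c = Rk π a b) ((hRK π).2.1 hπ).1 1 2 0
  · exact DO.s2 (X := fun a b => ∃ U, MGe a b U) All.dm 1 0

theorem ds_step (hRK : T_RK.{u}) (hHSD : T_HSD.{u}) {π : Ordinal.{u} → Ordinal.{u}}
    (hπ : DR fun a b => b = π a) (a : Ordinal.{u}) :
    DS {ξ | RegHOD ξ ∧ ∀ j < ξ, π j < a → ∃ U, MGe ξ (Rk π ξ (π j)) U} := by
  refine DO.and hHSD.2.1 ?_
  refine DO.allLt (R := fun j w => π j < a → ∃ U, MGe (w 0) (Rk π (w 0) (π j)) U) 0 ?_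
  refine (DO.ex (R := fun p w => p = π (w 0) ∧ (p < a → ∃ U, MGe (w 1) (Rk π (w 1) p) U))
    (DO.and (DO.s2 (X := fun a b => b = π a) hπ 1 0) (DO.imp (DO.ltc 0 a) ?_))).congr fun w => by simp
  exact DO.s2 (X := fun a b => ∃ U, MGe a (Rk π a b) U) (do_rk hRK hπ) 2 0

theorem X (hNX : T_NX.{u}) (hLMM : T_LMM.{u}) (hCO1 : T_CO1.{u}) (hPO2 : T_PO2.{u})
    (hNO2 : T_NO2.{u}) (hCVR : T_CVR.{u}) (hNM : T_NM.{u}) (hNR : T_NR.{u}) (hWN2 : T_WN2.{u})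
    (hHMI : T_HMI.{u}) (hRK : T_RK.{u}) (hHSD : T_HSD.{u}) (hUP : T_UP.{u}) : T_PB.{u} := by
  intro D' D K lam Q f hD' hWD' hD hWD hDD hK hDK hEQ hfew π hπ a
  have hDK' : D < K := (lt_succ D).trans hDK
  have hK0 : ℵ₀ < K := hD.2.2.1.trans hDK'
  have hKc0 : ℵ₀ < K.ord.cof := by rw [hK.cof_ord]; exact hK0
  induction a using WellFoundedLT.induction with
  | ind a ih =>
    have hex : ∀ j : Ordinal.{u}, ∃ C, Clb K.ord C ∧ (π j < a → ∀ ν ∈ C, St D' D K lam ν →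
        ∃ U, MGe ν (Rk π ν (π j)) U) := by
      intro j
      by_cases hj : π j < a
      · obtain ⟨C, hC, h⟩ := ih (π j) hj
        exact ⟨C, hC, fun _ => h⟩
      · exact ⟨univ, Lm.clb_univ hK0, fun h => absurd h hj⟩
    choose C1 hC1 h1 using hex
    have hdiag := Pool.Agent.H33.HD.VD.diag hK hK0 C1 fun j _ => hC1 j
    obtain ⟨C2, hC2, h2⟩ := reg_club hD hK hDK'
    obtain ⟨X, hXd⟩ : ∃ X : Set Ordinal.{u}, X = {ξ | RegHOD ξ ∧ ∀ j < ξ, π j < a →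
      ∃ U, MGe ξ (Rk π ξ (π j)) U} := ⟨_, rfl⟩
    have hXD : DS X := by rw [hXd]; exact ds_step hRK hHSD hπ a
    have hXR : ∀ ξ ∈ X, RegHOD ξ := fun ξ hξ => by
      rw [hXd] at hξ
      exact hξ.1
    obtain ⟨-, C, hC, h3⟩ := Lm.X hNX hLMM hCO1 hPO2 hNO2 hCVR hNM hNR hWN2 hD' hWD' hD hWD hDD
      hK hDK hEQ hfew hXD hXR (All.ci K.ord _ _ hKc0 hdiag hC2) fun ν hν hSt => by
        rw [hXd]
        exact ⟨h2 ν hν.2 hSt.1, fun j hj hja => h1 j hja ν (hν.1.2 j hj) hSt⟩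
    refine ⟨C, hC, fun ν hν hSt => ?_⟩
    obtain ⟨W, hW, hXW⟩ := h3 ν hν hSt.1 hSt.2.1 hSt.2.2.2
    refine ⟨W, ?_⟩
    rw [MGe]
    refine ⟨(hHMI _ _).2 hW, ?_⟩
    rintro ⟨ζ, hζ⟩
    obtain ⟨j, hj, hja, rfl⟩ := ((hRK π).1 ν a ζ).1 hζ
    refine hUP π hπ (π j) ν W hW ?_
    have hY : DS {b | ∃ U, MGe b (Rk π b (π j)) U} := by
      refine DO.sub (R := fun p w => ∃ U, MGe (w 0) (Rk π (w 0) p) U) (π j) ?_
      exact DO.s2 (X := fun a b => ∃ U, MGe a (Rk π a b) U) (do_rk hRK hπ) 1 0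
    have hgt : DS {b : Ordinal.{u} | j < b} := DO.gtc 0 j
    have hXg : DS (X ∩ {b : Ordinal.{u} | j < b}) := DO.and hXD hgt
    refine hW.up _ _ hXg hY (hW.int X _ hXD hgt hXW (hW.gt j hj)) fun b _ hb => ?_
    obtain ⟨hb1, hb2⟩ := hb
    rw [hXd] at hb1
    exact hb1.2 j hb2 hja

end Pool.Agent.H7.HDA.PB
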